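import Mathlib
import Pool.Agent.Q10.Basic

/-!
# The Jacobson radical of a centrally essential ring need not be centrally essential
-/

namespace Pool.Agent.Results.MP_0b5955_al.RadicalNotCE

/-- A (possibly non-unital) ring `R` is centrally essential: either it is commutative, or for every
non-central `a` there are nonzero central `x`, `y` with `a * x = y`. -/
def CentrallyEssential (R : Type*) [NonUnitalRing R] : Prop :=
  (∀ a b : R, a * b = b * a) ∨
    ∀ a : R, a ∉ Set.center R →
      ∃ x ∈ Set.center R, ∃ y ∈ Set.center R, x ≠ 0 ∧ y ≠ 0 ∧ a * x = y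

/-- The Jacobson radical of a ring with identity (Mathlib's `Ring.jacobson`), regarded as a
non-unital ring in its own right. -/
def radical (R : Type*) [Ring R] : NonUnitalSubring R where
  carrier := Ring.jacobson R
  add_mem' := fun ha hb => (Ring.jacobson R).add_mem ha hb
  zero_mem' := (Ring.jacobson R).zero_mem
  mul_mem' := fun _ hb => Ideal.mul_mem_left _ _ hb
  neg_mem' := fun ha => (Ring.jacobson R).neg_mem ha

/-! ### The example -/

/-- The example: `ℤ ⊕ ℤ a ⊕ ℤ b ⊕ (ℤ / 2) c` with `a b = c` and all other products of two of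
`a, b, c` equal to zero. -/
@[ext] structure E where
  n : ℤ
  a : ℤ
  b : ℤ
  c : ZMod 2

namespace E

instance : Add E := ⟨fun x y => ⟨x.n + y.n, x.a + y.a, x.b + y.b, x.c + y.c⟩⟩
instance : Neg E := ⟨fun x => ⟨-x.n, -x.a, -x.b, -x.c⟩⟩
instance : Zero E := ⟨⟨0, 0, 0, 0⟩⟩
instance : One E := ⟨⟨1, 0, 0, 0⟩⟩
instance : Mul E := ⟨fun x y => ⟨x.n * y.n, x.n * y.a + x.a * y.n, x.n * y.b + x.b * y.n,
  (x.n : ZMod 2) * y.c + x.c * (y.n : ZMod 2) + (x.a : ZMod 2) * (y.b : ZMod 2)⟩⟩

@[simp] theorem mul_n (x y : E) : (x * y).n = x.n * y.n := rfl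
@[simp] theorem mul_a (x y : E) : (x * y).a = x.n * y.a + x.a * y.n := rfl
@[simp] theorem mul_b (x y : E) : (x * y).b = x.n * y.b + x.b * y.n := rfl
@[simp] theorem mul_c (x y : E) : (x * y).c = (x.n : ZMod 2) * y.c +
    x.c * (y.n : ZMod 2) + (x.a : ZMod 2) * (y.b : ZMod 2) := rfl
@[simp] theorem add_n (x y : E) : (x + y).n = x.n + y.n := rfl
@[simp] theorem add_a (x y : E) : (x + y).a = x.a + y.a := rfl
@[simp] theorem add_b (x y : E) : (x + y).b = x.b + y.b := rfl
@[simp] theorem add_c (x y : E) : (x + y).c = x.c + y.c := rfl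
@[simp] theorem neg_n (x : E) : (-x).n = -x.n := rfl
@[simp] theorem neg_a (x : E) : (-x).a = -x.a := rfl
@[simp] theorem neg_b (x : E) : (-x).b = -x.b := rfl
@[simp] theorem neg_c (x : E) : (-x).c = -x.c := rfl
@[simp] theorem zero_n : (0 : E).n = 0 := rfl
@[simp] theorem zero_a : (0 : E).a = 0 := rfl
@[simp] theorem zero_b : (0 : E).b = 0 := rfl
@[simp] theorem zero_c : (0 : E).c = 0 := rfl
@[simp] theorem one_n : (1 : E).n = 1 := rfl
@[simp] theorem one_a : (1 : E).a = 0 := rfl
@[simp] theorem one_b : (1 : E).b = 0 := rfl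
@[simp] theorem one_c : (1 : E).c = 0 := rfl

instance : Ring E where
  add_assoc x y z := by ext <;> simp <;> ring
  zero_add x := by ext <;> simp
  add_zero x := by ext <;> simp
  add_comm x y := by ext <;> simp <;> ring
  neg_add_cancel x := by ext <;> simp [CharTwo.add_self_eq_zero]
  mul_assoc x y z := by ext <;> simp <;> ring
  one_mul x := by ext <;> simp
  mul_one x := by ext <;> simp
  left_distrib x y z := by ext <;> simp <;> ring
  right_distrib x y z := by ext <;> simp <;> ring
  zero_mul x := by ext <;> simp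
  mul_zero x := by ext <;> simp
  nsmul := nsmulRec
  zsmul := zsmulRec

theorem mem_center_of {x : E} (h2 : (x.a : ZMod 2) = 0) (h3 : (x.b : ZMod 2) = 0) :
    x ∈ Set.center E := by
  rw [Semigroup.mem_center_iff]
  intro g
  ext <;> simp [h2, h3] <;> ring

theorem ce : CentrallyEssential E := by
  right
  intro r hr
  have two : ((2 : ℤ) : ZMod 2) = 0 := by decide
  refine ⟨⟨2, 0, 0, 0⟩, mem_center_of (by simp) (by simp), r * ⟨2, 0, 0, 0⟩,
    mem_center_of ?_ ?_, ?_, ?_, rfl⟩
  · simp only [mul_a, mul_zero, zero_add, Int.cast_mul, two]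
  · simp only [mul_b, mul_zero, zero_add, Int.cast_mul, two]
  · intro h
    have := congrArg E.n h
    simp at this
  · intro h
    apply hr
    have h2 : r.a = 0 := by simpa using congrArg E.a h
    have h3 : r.b = 0 := by simpa using congrArg E.b h
    exact mem_center_of (by simp [h2]) (by simp [h3])

theorem mem_radical {x : E} : x ∈ Ring.jacobson E ↔ x.n = 0 := by
  constructor
  · intro hx
    obtain ⟨u, hu⟩ := Q10.isUnit_one_add_mul_of_mem_jacobson hx (⟨3 * x.n, 0, 0, 0⟩ : E)
    have h1 : (u : E).n * ((u⁻¹ : Eˣ) : E).n = 1 := by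
      rw [← mul_n, Units.mul_inv, one_n]
    have h2 : (u : E).n = 1 + 3 * x.n * x.n := by rw [hu]; simp
    have h3 : IsUnit (1 + 3 * x.n * x.n) := by
      rw [← h2]; exact IsUnit.of_mul_eq_one _ h1
    rw [Int.isUnit_iff] at h3
    have h4 : x.n * x.n ≥ 0 := mul_self_nonneg _
    have h5 : x.n * x.n = 0 := by rcases h3 with h3 | h3 <;> nlinarith
    exact mul_self_eq_zero.mp h5
  · intro hx
    apply Q10.mem_jacobson_of_isUnit
    intro r
    set m : E := r * x with hm
    have hm1 : m.n = 0 := by rw [hm]; simp [hx]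
    refine ⟨1 - m + m * m, ?_⟩
    have hmmm : m * m * m = 0 := by ext <;> simp [hm1]
    calc (1 - m + m * m) * (1 + m) = 1 + m * m * m := by noncomm_ring
      _ = 1 := by rw [hmmm, add_zero]

theorem radical_not_ce : ¬ CentrallyEssential (radical E) := by
  have ha : (⟨0, 1, 0, 0⟩ : E) ∈ radical E := mem_radical.mpr rfl
  have hb : (⟨0, 0, 1, 0⟩ : E) ∈ radical E := mem_radical.mpr rfl
  have hab : (⟨0, 1, 0, 0⟩ : E) * ⟨0, 0, 1, 0⟩ ≠ ⟨0, 0, 1, 0⟩ * ⟨0, 1, 0, 0⟩ := by
    intro h
    have := congrArg E.c h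
    simp at this
  rintro (hcomm | h)
  · exact hab (congrArg Subtype.val (hcomm ⟨_, ha⟩ ⟨_, hb⟩))
  · have hnc : (⟨_, ha⟩ : radical E) ∉ Set.center (radical E) := by
      intro hc
      rw [Semigroup.mem_center_iff] at hc
      exact hab (congrArg Subtype.val (hc ⟨_, hb⟩)).symm
    obtain ⟨x, hx, y, -, -, hy0, hxy⟩ := h _ hnc
    apply hy0
    rw [← hxy]
    have hx1 : (x : E).n = 0 := mem_radical.mp x.2
    have hx3 : ((x : E).b : ZMod 2) = 0 := by
      rw [Semigroup.mem_center_iff] at hx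
      have h1 : (⟨0, 1, 0, 0⟩ : E) * (x : E) = (x : E) * ⟨0, 1, 0, 0⟩ :=
        congrArg Subtype.val (hx ⟨_, ha⟩)
      have h2 := congrArg E.c h1
      simpa using h2
    apply Subtype.ext
    change (⟨0, 1, 0, 0⟩ : E) * (x : E) = 0
    ext <;> simp [hx1, hx3]

end E

/-- There is a centrally essential ring `R` (even with identity) whose Jacobson radical, regarded
as a ring, is not centrally essential. -/
theorem result : ∃ (R : Type) (_ : Ring R), CentrallyEssential R ∧
    ¬ CentrallyEssential (radical R) :=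
  ⟨E, inferInstance, E.ce, E.radical_not_ce⟩

end Pool.Agent.Results.MP_0b5955_al.RadicalNotCE
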